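import Pool.Agent.K1H77.CG.Stm

/-! # Project CG (MP_992c04_co), piece S_INT: pairs of different cycles with a common vertex -/

set_option autoImplicit false

open Finset Filter Topology
open Pool.Agent.K1H77.CG

namespace Pool.Agent.K1H7.CG

theorem mem_FE {k n : ℕ} {c : CD k n} {h : HE n} :
    h ∈ FE c ↔ (∃ i, h = (c.1 i, c.2.2 i)) ∨ ∃ i, h = (c.1 i, c.2.1 i) := by
  simp only [FE, mem_union, mem_image, mem_univ, true_and]
  constructor
  · rintro (⟨i, h⟩ | ⟨i, h⟩)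
    · exact Or.inl ⟨i, h.symm⟩
    · exact Or.inr ⟨i, h.symm⟩
  · rintro (⟨i, h⟩ | ⟨i, h⟩)
    · exact Or.inl ⟨i, h.symm⟩
    · exact Or.inr ⟨i, h.symm⟩

theorem card_FE {k n : ℕ} {M : Equiv.Perm (HE n)} {c : CD k n} (hc : IsCyc M c) :
    (FE c).card = 2 * (k + 1) := by
  classical
  have h1 : (univ.image (fun i => (c.1 i, c.2.2 i))).card = k + 1 := by
    rw [card_image_of_injective]
    · simp
    · intro i j h
      exact hc.1 (Prod.ext_iff.1 h).1
  have h2 : (univ.image (fun i => (c.1 i, c.2.1 i))).card = k + 1 := by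
    rw [card_image_of_injective]
    · simp
    · intro i j h
      exact hc.1 (Prod.ext_iff.1 h).1
  unfold FE
  rw [card_union_of_disjoint, h1, h2]
  · ring
  · rw [disjoint_left]
    intro h h1 h2
    simp only [mem_image, mem_univ, true_and] at h1 h2
    obtain ⟨i, rfl⟩ := h1
    obtain ⟨j, hj⟩ := h2
    have e1 : c.1 j = c.1 i := (Prod.ext_iff.1 hj).1
    have e2 := hc.1 e1
    subst e2
    exact hc.2.1 j (Prod.ext_iff.1 hj).2

theorem M_in {k n : ℕ} {M : Equiv.Perm (HE n)} {c : CD k n} (hM : IsMat M) (hc : IsCyc M c)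
    (i : Fin (k + 1)) : M (c.1 i, c.2.1 i) = (c.1 (i - 1), c.2.2 (i - 1)) := by
  have h := hc.2.2 (i - 1)
  rw [sub_add_cancel] at h
  rw [← h, hM.1]

theorem FE_closed {k n : ℕ} {M : Equiv.Perm (HE n)} {c : CD k n} (hM : IsMat M) (hc : IsCyc M c) :
    ∀ h ∈ FE c, M h ∈ FE c := by
  intro h hh
  rcases mem_FE.1 hh with ⟨i, rfl⟩ | ⟨i, rfl⟩
  · rw [hc.2.2 i]
    exact mem_FE.2 (Or.inr ⟨i + 1, rfl⟩)
  · rw [M_in hM hc i]
    exact mem_FE.2 (Or.inl ⟨i - 1, rfl⟩)

theorem FE_agree {k n : ℕ} {M M' : Equiv.Perm (HE n)} {c : CD k n} (hM : IsMat M) (hc : IsCyc M c)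
    (hM' : IsMat M') (hc' : IsCyc M' c) : ∀ h ∈ FE c, M h = M' h := by
  intro h hh
  rcases mem_FE.1 hh with ⟨i, rfl⟩ | ⟨i, rfl⟩
  · rw [hc.2.2 i, hc'.2.2 i]
  · rw [M_in hM hc i, M_in hM' hc' i]

open Classical in
/-- the number of matchings which contain two given intersecting cycles -/
theorem count_pair (h1 : S_NEW) (h2 : S_PRES) (h3 : S_FMR) (k m : ℕ) (hm : 1 ≤ m)
    (c c' : CD k (2 * m)) (hcc : ∃ i j, c.1 i = c'.1 j)
    (hnew : ∃ i, (c'.1 i, c'.2.2 i) ∉ FE c) :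
    (((Mat (HE (2 * m))).filter (fun M => IsCyc M c ∧ IsCyc M c')).card : ℝ) ≤
      fm (6 * m) * ((2 / (3 * m) : ℝ) ^ (k + 2) *
        (2 / (3 * m) : ℝ) ^ (univ.filter (fun i => c'.1 i ∉ univ.image c.1)).card) := by
  have hm' : (1 : ℝ) ≤ (m : ℝ) := by exact_mod_cast hm
  have hx : (0 : ℝ) < 2 / (3 * m) := by positivity
  by_cases hne : ((Mat (HE (2 * m))).filter (fun M => IsCyc M c ∧ IsCyc M c')).Nonempty
  swap
  · rw [not_nonempty_iff_eq_empty] at hne
    rw [hne]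
    simp only [card_empty, Nat.cast_zero]
    positivity
  obtain ⟨M0, hM0⟩ := hne
  rw [mem_filter, mem_Mat] at hM0
  obtain ⟨hM, hc, hc'⟩ := hM0
  set F : Finset (HE (2 * m)) := FE c ∪ FE c' with hF
  have hFcl : ∀ x ∈ F, M0 x ∈ F := by
    intro x hx
    rcases mem_union.1 hx with hx | hx
    · exact mem_union_left _ (FE_closed hM hc x hx)
    · exact mem_union_right _ (FE_closed hM hc' x hx)
  have hcard := h2 (HE (2 * m)) F M0 hFcl (fun x _ => hM.1 x) (fun x _ => hM.2 x)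
  have hsub : ((Mat (HE (2 * m))).filter (fun M => IsCyc M c ∧ IsCyc M c')) ⊆
      ((Mat (HE (2 * m))).filter (fun M => ∀ x ∈ F, M x = M0 x)) := by
    intro M hMM
    rw [mem_filter, mem_Mat] at hMM ⊢
    refine ⟨hMM.1, fun x hx => ?_⟩
    rcases mem_union.1 hx with hx | hx
    · exact FE_agree hMM.1 hMM.2.1 hM hc x hx
    · exact FE_agree hMM.1 hMM.2.2 hM hc' x hx
  have hcardle := card_le_card hsub
  rw [hcard] at hcardle
  have hHE : Fintype.card (HE (2 * m)) = 6 * m := by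
    simp [Fintype.card_prod]
    ring
  rw [hHE] at hcardle
  -- size of F
  have hA : ∀ h ∈ FE c, h.1 ∈ univ.image c.1 := by
    intro h hh
    rcases mem_FE.1 hh with ⟨i, rfl⟩ | ⟨i, rfl⟩
    · exact mem_image_of_mem _ (mem_univ i)
    · exact mem_image_of_mem _ (mem_univ i)
  have hmeet : ∃ i, c'.1 i ∈ univ.image c.1 := by
    obtain ⟨i, j, hij⟩ := hcc
    exact ⟨j, hij ▸ mem_image_of_mem _ (mem_univ i)⟩
  have hnewF := h1 k (2 * m) M0 (univ.image c.1) (FE c) c' hM (FE_closed hM hc) hA hc' hmeet hnew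
  rw [card_FE hc, ← hF] at hnewF
  have hj : (univ.image c'.1 \ univ.image c.1).card =
      (univ.filter (fun i => c'.1 i ∉ univ.image c.1)).card := by
    rw [← card_image_of_injective (univ.filter (fun i => c'.1 i ∉ univ.image c.1)) hc'.1]
    congr 1
    ext v
    simp only [Finset.mem_sdiff, Finset.mem_image, mem_univ, true_and, mem_filter]
    constructor
    · rintro ⟨⟨i, rfl⟩, hv⟩
      exact ⟨i, hv, rfl⟩
    · rintro ⟨i, hv, rfl⟩
      exact ⟨⟨i, rfl⟩, hv⟩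
  rw [hj] at hnewF
  set j : ℕ := (univ.filter (fun i => c'.1 i ∉ univ.image c.1)).card with hjdef
  have hFle : F.card ≤ 6 * m := by
    rw [← hHE]
    exact card_le_univ F
  refine le_trans (by exact_mod_cast hcardle : _ ≤ ((fm (6 * m - F.card) : ℕ) : ℝ)) ?_
  rw [← pow_add]
  rcases Nat.even_or_odd' F.card with ⟨e, he | he⟩
  · have he1 : k + 2 + j ≤ e := by omega
    have he2 : e ≤ 3 * m := by omega
    have h4 := h3 (3 * m) e he2
    have e1 : 2 * (3 * m - e) = 6 * m - F.card := by omega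
    have e2 : 2 * (3 * m) = 6 * m := by ring
    rw [e1, e2] at h4
    have hy : (1 : ℝ) ≤ ((3 * m : ℕ) : ℝ) / 2 := by
      push_cast
      linarith
    have h5 : (((3 * m : ℕ) : ℝ) / 2) ^ (k + 2 + j) ≤ (((3 * m : ℕ) : ℝ) / 2) ^ e :=
      pow_le_pow_right₀ hy he1
    have h6 : (fm (6 * m - F.card) : ℝ) * (((3 * m : ℕ) : ℝ) / 2) ^ (k + 2 + j) ≤ fm (6 * m) :=
      le_trans (mul_le_mul_of_nonneg_left h5 (Nat.cast_nonneg _)) h4
    have h7 : (2 / (3 * m) : ℝ) = (((3 * m : ℕ) : ℝ) / 2)⁻¹ := by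
      push_cast
      rw [inv_div]
    rw [h7, inv_pow, ← div_eq_mul_inv, le_div_iff₀ (by positivity)]
    exact h6
  · have e1 : ∃ r, 6 * m - F.card = 2 * r + 1 := ⟨3 * m - e - 1, by omega⟩
    obtain ⟨r, hr⟩ := e1
    rw [hr, fm_odd]
    simp only [Nat.cast_zero]
    positivity

open Classical in
/-- the weighted number of the maps of `Fin (k + 1)` into `Fin n` -/
theorem sum_weight {n k : ℕ} (A : Finset (Fin n)) (hA : A.card ≤ k + 1) (x : ℝ) (hx : 0 ≤ x) :
    ∑ f : Fin (k + 1) → Fin n, x ^ (univ.filter (fun i => f i ∉ A)).card ≤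
      ((k : ℝ) + 1 + n * x) ^ (k + 1) := by
  have h1 : ∀ f : Fin (k + 1) → Fin n, x ^ (univ.filter (fun i => f i ∉ A)).card =
      ∏ i, (if f i ∉ A then x else 1) := by
    intro f
    rw [prod_ite, prod_const, prod_const_one, mul_one]
  simp_rw [h1]
  have h2 : ∑ f : Fin (k + 1) → Fin n, ∏ i, (if f i ∉ A then x else 1) =
      ∏ _i : Fin (k + 1), ∑ v : Fin n, (if v ∉ A then x else (1 : ℝ)) := by
    rw [Finset.prod_univ_sum]
    simp [Fintype.piFinset_univ]
  rw [h2, prod_const, card_univ, Fintype.card_fin]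
  apply pow_le_pow_left₀
  · apply sum_nonneg
    intro v _
    split_ifs <;> positivity
  · rw [sum_ite, sum_const, sum_const, nsmul_eq_mul, nsmul_eq_mul, mul_one]
    have h3 : ((univ.filter (fun v => v ∉ A)).card : ℝ) ≤ n := by
      have := card_le_univ (univ.filter (fun v : Fin n => v ∉ A))
      rw [Fintype.card_fin] at this
      exact_mod_cast this
    have h4 : ((univ.filter (fun v => ¬ v ∉ A)).card : ℝ) ≤ (k : ℝ) + 1 := by
      have e : univ.filter (fun v => ¬ v ∉ A) = A := by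
        ext v
        simp
      rw [e]
      exact_mod_cast hA
    have h5 := mul_le_mul_of_nonneg_right h3 hx
    linarith

open Classical in
theorem t_INT (h1 : S_NEW) (h2 : S_PRES) (h3 : S_FMR) : S_INT := by
  intro k
  refine ⟨2 / 3 * ((4 / 3 : ℝ) ^ (k + 1) * (9 ^ (k + 1) * (9 ^ (k + 1) *
    ((k : ℝ) + 1 + 4 / 3) ^ (k + 1)))), ?_⟩
  intro m hm
  have hm' : (1 : ℝ) ≤ (m : ℝ) := by exact_mod_cast hm
  set x : ℝ := 2 / (3 * m) with hxdef
  have hx : (0 : ℝ) < x := by positivity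
  -- exchange
  have hex : (∑ M ∈ Mat (HE (2 * m)), (((cycs k M ×ˢ cycs k M).filter
      (fun p => (∃ i j, p.1.1 i = p.2.1 j) ∧ ∃ i, (p.2.1 i, p.2.2.2 i) ∉ FE p.1)).card : ℝ)) =
      ∑ p : CD k (2 * m) × CD k (2 * m), (((Mat (HE (2 * m))).filter (fun M =>
        (IsCyc M p.1 ∧ IsCyc M p.2) ∧
          ((∃ i j, p.1.1 i = p.2.1 j) ∧ ∃ i, (p.2.1 i, p.2.2.2 i) ∉ FE p.1))).card : ℝ) := by
    have e1 : ∀ M : Equiv.Perm (HE (2 * m)), (((cycs k M ×ˢ cycs k M).filter
      (fun p => (∃ i j, p.1.1 i = p.2.1 j) ∧ ∃ i, (p.2.1 i, p.2.2.2 i) ∉ FE p.1)).card : ℝ) =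
        ∑ p : CD k (2 * m) × CD k (2 * m), if ((IsCyc M p.1 ∧ IsCyc M p.2) ∧
          ((∃ i j, p.1.1 i = p.2.1 j) ∧ ∃ i, (p.2.1 i, p.2.2.2 i) ∉ FE p.1)) then (1 : ℝ)
          else 0 := by
      intro M
      rw [sum_boole]
      congr 2
      ext p
      simp only [mem_filter, mem_product, mem_cycs, mem_univ, true_and]
    simp_rw [e1]
    rw [sum_comm]
    apply sum_congr rfl
    intro p _
    rw [sum_boole]
  rw [hex]
  have hbound : ∀ p : CD k (2 * m) × CD k (2 * m), (((Mat (HE (2 * m))).filter (fun M =>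
        (IsCyc M p.1 ∧ IsCyc M p.2) ∧
          ((∃ i j, p.1.1 i = p.2.1 j) ∧ ∃ i, (p.2.1 i, p.2.2.2 i) ∉ FE p.1))).card : ℝ) ≤
      fm (6 * m) * (x ^ (k + 2) *
        x ^ (univ.filter (fun i => p.2.1 i ∉ univ.image p.1.1)).card) := by
    intro p
    by_cases hp : ((∃ i j, p.1.1 i = p.2.1 j) ∧ ∃ i, (p.2.1 i, p.2.2.2 i) ∉ FE p.1)
    · have := count_pair h1 h2 h3 k m hm p.1 p.2 hp.1 hp.2
      refine le_trans (le_of_eq ?_) this
      congr 2
      ext M
      simp only [mem_filter]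
      tauto
    · have e : ((Mat (HE (2 * m))).filter (fun M => (IsCyc M p.1 ∧ IsCyc M p.2) ∧
          ((∃ i j, p.1.1 i = p.2.1 j) ∧ ∃ i, (p.2.1 i, p.2.2.2 i) ∉ FE p.1))) = ∅ := by
        rw [filter_eq_empty_iff]
        intro M _ h
        exact hp h.2
      rw [e]
      simp only [card_empty, Nat.cast_zero]
      positivity
  refine le_trans (sum_le_sum fun p _ => hbound p) ?_
  rw [← mul_sum, ← mul_sum]
  have hsum : ∑ p : CD k (2 * m) × CD k (2 * m),
      x ^ (univ.filter (fun i => p.2.1 i ∉ univ.image p.1.1)).card ≤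
      ((2 * m : ℕ) : ℝ) ^ (k + 1) * 9 ^ (k + 1) * (9 ^ (k + 1) *
        ((k : ℝ) + 1 + 4 / 3) ^ (k + 1)) := by
    rw [Fintype.sum_prod_type]
    have hin : ∀ c : CD k (2 * m), ∑ c' : CD k (2 * m),
        x ^ (univ.filter (fun i => c'.1 i ∉ univ.image c.1)).card ≤
        9 ^ (k + 1) * ((k : ℝ) + 1 + 4 / 3) ^ (k + 1) := by
      intro c
      rw [Fintype.sum_prod_type]
      simp only [sum_const, card_univ, nsmul_eq_mul]
      rw [← mul_sum]
      have hc1 : ((Fintype.card ((Fin (k + 1) → Fin 3) × (Fin (k + 1) → Fin 3)) : ℕ) : ℝ) =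
          9 ^ (k + 1) := by
        rw [Fintype.card_prod]
        simp only [Fintype.card_fun, Fintype.card_fin]
        push_cast
        rw [← mul_pow]
        norm_num
      rw [hc1]
      apply mul_le_mul_of_nonneg_left _ (by positivity)
      have hA : (univ.image c.1).card ≤ k + 1 := by
        refine le_trans card_image_le ?_
        simp
      refine le_trans (sum_weight (univ.image c.1) hA x hx.le) ?_
      have : ((2 * m : ℕ) : ℝ) * x = 4 / 3 := by
        rw [hxdef]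
        push_cast
        field_simp
        norm_num
      rw [this]
    refine le_trans (sum_le_sum fun c _ => hin c) ?_
    rw [sum_const, card_univ, nsmul_eq_mul]
    have hc2 : ((Fintype.card (CD k (2 * m)) : ℕ) : ℝ) =
        ((2 * m : ℕ) : ℝ) ^ (k + 1) * 9 ^ (k + 1) := by
      rw [Fintype.card_prod, Fintype.card_prod]
      simp only [Fintype.card_fun, Fintype.card_fin]
      push_cast
      rw [← mul_pow 3 3]
      norm_num
    rw [hc2]
  refine le_trans (mul_le_mul_of_nonneg_left (mul_le_mul_of_nonneg_left hsum (by positivity))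
    (Nat.cast_nonneg _)) (le_of_eq ?_)
  have hxn : x ^ (k + 2) * ((2 * m : ℕ) : ℝ) ^ (k + 1) = (4 / 3) ^ (k + 1) * (2 / (3 * m)) := by
    rw [pow_succ, mul_right_comm, ← mul_pow]
    have : x * ((2 * m : ℕ) : ℝ) = 4 / 3 := by
      rw [hxdef]
      push_cast
      field_simp
      norm_num
    rw [this]
  calc (fm (6 * m) : ℝ) * (x ^ (k + 2) * (((2 * m : ℕ) : ℝ) ^ (k + 1) * 9 ^ (k + 1) * (9 ^ (k + 1) *
        ((k : ℝ) + 1 + 4 / 3) ^ (k + 1))))
      = fm (6 * m) * ((x ^ (k + 2) * ((2 * m : ℕ) : ℝ) ^ (k + 1)) * (9 ^ (k + 1) * (9 ^ (k + 1) *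
        ((k : ℝ) + 1 + 4 / 3) ^ (k + 1)))) := by ring
    _ = _ := by
      rw [hxn]
      field_simp

end Pool.Agent.K1H7.CG
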